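import Pool.Agent.H297R2.LG.Defs
import Pool.Agent.H382P.TT
import Pool.Agent.H382P.Newton

/-! # Task 09: limits of `QT` (helper613) -/

open Complex Filter Topology Set MeasureTheory

namespace LG

open SG (hh nn dd dl ord NZ)
open SP (RHs ZZ mu wt Mk Par Eb PS chi qq tt)

namespace QLimAux

open SP.TTAux

/-- squares of the coefficients -/
noncomputable def y2 (P : Par) (r T : ℝ) (p : ℕ) : ℂ := ((yp P r T p ^ 2 : ℝ) : ℂ)

/-- the test function -/
noncomputable def HQ (P : Par) (r : ℝ) (m : ℕ) (u : ℝ) : ℂ :=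
  ((r ^ 2 * (u * P.b m u ^ 2) : ℝ) : ℂ)

lemma HQ_contDiff (P : Par) (r : ℝ) (m : ℕ) : ContDiff ℝ 1 (HQ P r m) := by
  have hb : ContDiff ℝ 1 (P.b m) := (P.hb m).of_le (by norm_num)
  unfold HQ
  exact ofRealCLM.contDiff.comp (contDiff_const.mul (contDiff_id.mul (hb.pow 2)))

lemma b_zero (P : Par) (m : ℕ) (u : ℝ) (hu : 1 ≤ u ∨ u ≤ 0) : P.b m u = 0 := by
  by_contra h
  obtain ⟨h2, hB, hl, hu'⟩ := P.hb0 m _ h
  have hBpos : (0 : ℝ) < P.B := by have := P.hB; positivity
  have hκ := P.hκ
  have hκ1 : 0 < 1 - P.κ := by have := P.hκ1; linarith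
  have hm := P.hm
  have h5 : (m : ℝ) * (1 - P.κ) / P.B ≤ 1 - P.κ := by
    rw [div_le_iff₀ hBpos, mul_comm]
    apply mul_le_mul_of_nonneg_left _ hκ1.le
    exact_mod_cast hB
  have h6 : 0 ≤ ((m : ℝ) - 1) * (1 - P.κ) / P.B := by
    have : (2 : ℝ) ≤ m := by exact_mod_cast h2
    apply div_nonneg (mul_nonneg (by linarith) hκ1.le) hBpos.le
  rcases hu with hu | hu <;> linarith

lemma HQ_zero (P : Par) (r : ℝ) (m : ℕ) (u : ℝ) (hu : 1 ≤ u ∨ u ≤ 0) : HQ P r m u = 0 := by
  simp [HQ, b_zero P m u hu]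

lemma HQ_lip (P : Par) (r : ℝ) (m : ℕ) : ∃ K : NNReal, LipschitzWith K (HQ P r m) := by
  apply ContDiff.lipschitzWith_of_hasCompactSupport (n := 1) _ (HQ_contDiff P r m) (by norm_num)
  apply HasCompactSupport.intro (isCompact_Icc (a := (0 : ℝ)) (b := 1))
  intro u hu
  apply HQ_zero
  rw [mem_Icc, not_and_or, not_le, not_le] at hu
  rcases hu with h | h
  · right; exact h.le
  · left; exact h.le

lemma y2_eq (P : Par) (r T : ℝ) (p : ℕ) : y2 P r T p = ((r ^ 2 * chi P T p ^ 2 / p : ℝ) : ℂ) := by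
  unfold y2 yp
  rw [div_pow, Real.sq_sqrt (Nat.cast_nonneg p), mul_pow]

lemma y2_norm (P : Par) (r T : ℝ) (p : ℕ) (hp : 0 < p) (h : |chi P T p| ≤ 2) :
    ‖y2 P r T p‖ ≤ 4 * r ^ 2 / p := by
  rw [y2_eq, Complex.norm_real, Real.norm_eq_abs]
  have hp0 : (0 : ℝ) < p := by exact_mod_cast hp
  rw [abs_of_nonneg (by positivity)]
  have h2 : chi P T p ^ 2 ≤ 4 := by
    rw [← sq_abs]
    nlinarith [abs_nonneg (chi P T p)]
  apply div_le_div_of_nonneg_right _ hp0.le
  nlinarith [sq_nonneg r]

lemma HQ_eq (P : Par) (r : ℝ) (m : ℕ) (T : ℝ) (hT : 10 ≤ T) (p : ℕ) :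
    ((1 / Real.log T : ℝ) : ℂ) * ((Real.log p / p : ℝ) * HQ P r m (Real.log p / Real.log T)) =
      ((r ^ 2 * (Real.log p / Real.log T * P.b m (Real.log p / Real.log T)) ^ 2 / p : ℝ) : ℂ) := by
  have hL := log_pos' hT
  unfold HQ
  rw [← Complex.ofReal_mul, ← Complex.ofReal_mul]
  congr 1
  field_simp

lemma y2_sub (P : Par) (r T : ℝ) (hT : 10 ≤ T) (p m : ℕ) (hp : 0 < p) (C : ℝ)
    (h : |chi P T p| ≤ 2) (h1 : |chi P T p - Real.log p / Real.log T *
      P.b m (Real.log p / Real.log T)| ≤ C / Real.log T) :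
    ‖y2 P r T p - ((1 / Real.log T : ℝ) : ℂ) *
      ((Real.log p / p : ℝ) * HQ P r m (Real.log p / Real.log T))‖ ≤
      3 * r ^ 2 * (C / Real.log T) * (1 / p) := by
  have hu : 0 ≤ Real.log p / Real.log T :=
    div_nonneg (Real.log_natCast_nonneg p) (log_pos' hT).le
  rw [y2_eq, HQ_eq P r m T hT, ← Complex.ofReal_sub, Complex.norm_real, Real.norm_eq_abs]
  set u := Real.log p / Real.log T with hudef
  set x := chi P T p with hx
  have hb := P.hb1 m u
  set x0 : ℝ := u * P.b m u with hx0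
  have hp0 : (0 : ℝ) < p := by exact_mod_cast hp
  have e : r ^ 2 * x ^ 2 / p - r ^ 2 * x0 ^ 2 / p = r ^ 2 * ((x + x0) * (x - x0)) * (1 / p) := by
    field_simp
    ring
  have hx00 : 0 ≤ x0 := mul_nonneg hu hb.1
  have h7 : 0 ≤ C / Real.log T := (abs_nonneg _).trans h1
  rw [e, abs_mul, abs_mul, abs_mul, abs_of_nonneg (sq_nonneg r),
    abs_of_pos (show (0 : ℝ) < 1 / p by positivity)]
  apply mul_le_mul_of_nonneg_right _ (by positivity)
  rw [mul_comm (3 : ℝ), mul_assoc]
  apply mul_le_mul_of_nonneg_left _ (sq_nonneg r)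
  apply mul_le_mul _ h1 (abs_nonneg _) (by norm_num)
  calc |x + x0| ≤ |x| + |x0| := abs_add_le _ _
    _ ≤ 2 + 1 := by
      rw [abs_of_nonneg hx00]
      exact add_le_add h hb.2
    _ = 3 := by norm_num

theorem tt_lim2 (P : Par) (r : ℝ) (m : ℕ) (hm : 1 ≤ m) :
    Tendsto (fun T : ℝ => tt (PS P T) (Eb P T) (y2 P r T) m) atTop (𝓝 ((tm P r m : ℝ) : ℂ)) := by
  obtain ⟨C1, T1, hC1, hT1, hchi⟩ := SP.chi_approx P
  obtain ⟨K, hK⟩ := HQ_lip P r m
  obtain ⟨C2, hC2, hmert⟩ := SP.mert (HQ P r m) K hK (fun u hu => HQ_zero P r m u (Or.inl hu))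
  have htm : ((tm P r m : ℝ) : ℂ) = m * ∫ u in (0 : ℝ)..1, HQ P r m u := by
    unfold tm HQ
    rw [intervalIntegral.integral_ofReal, intervalIntegral.integral_const_mul]
    push_cast
    ring
  have hBpos : (0 : ℝ) < P.B := by have := P.hB; positivity
  have hκ1 : 0 < 1 - P.κ := by have := P.hκ1; linarith
  have he : 0 < (1 - P.κ) / P.B := by positivity
  have hN0 : Tendsto (fun T : ℝ => T ^ ((1 - P.κ) / P.B)) atTop atTop := tendsto_rpow_atTop he
  rw [tendsto_iff_norm_sub_tendsto_zero]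
  set R : ℝ := 4 * r ^ 2 with hR
  have hR0 : 0 ≤ R := by positivity
  have hbound : ∀ᶠ T : ℝ in atTop, ‖tt (PS P T) (Eb P T) (y2 P r T) m - (tm P r m : ℝ)‖ ≤
      R ^ 2 * m * C1 * (T ^ ((1 - P.κ) / P.B))⁻¹ +
        (m * (3 * r ^ 2) * C1 ^ 2 + m * C2) * (Real.log T)⁻¹ := by
    filter_upwards [eventually_ge_atTop T1, eventually_ge_atTop (10 : ℝ),
      hN0.eventually_ge_atTop (R + 1)] with T hTT hT10 hT8
    obtain ⟨hc, hs⟩ := hchi T hTT
    have hL := log_pos' hT10
    set N0 := T ^ ((1 - P.κ) / P.B) with hN0def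
    have hN0pos : 0 < N0 := by linarith
    have hmem : ∀ p ∈ PS P T, 0 < p ∧ R ≤ (p : ℝ) ∧ N0 ≤ p := by
      intro p hp
      have := lower P T hT10 p hp
      refine ⟨?_, by linarith, this⟩
      have h : (0 : ℝ) < p := by linarith
      exact_mod_cast h
    -- the r ≥ 2 part
    have hA : ‖tt (PS P T) (Eb P T) (y2 P r T) m -
        ∑ p ∈ (PS P T).filter (fun p => Eb P T p = m), (m : ℂ) * y2 P r T p‖ ≤
        R ^ 2 * m * C1 * N0⁻¹ := by
      rw [Finset.sum_filter]
      unfold tt
      rw [← Finset.sum_sub_distrib]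
      refine (norm_sum_le _ _).trans ?_
      calc _ ≤ ∑ p ∈ PS P T, R ^ 2 * m * N0⁻¹ * (1 / p : ℝ) := by
            apply Finset.sum_le_sum
            intro p hp
            obtain ⟨hp0, hp8, hpN⟩ := hmem p hp
            have hpr : (0 : ℝ) < p := by exact_mod_cast hp0
            have hE2 : 2 ≤ Eb P T p := by
              rw [PS, Finset.mem_filter] at hp
              exact hp.2.2
            by_cases hEm : Eb P T p = m
            · rw [if_pos (by rw [hEm]), if_pos hEm, hEm, Nat.div_self (by omega)]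
              simp only [Nat.sub_self, pow_zero, one_mul, pow_one, sub_self, norm_zero]
              positivity
            · rw [if_neg hEm, sub_zero]
              by_cases hd : Eb P T p ∣ m
              · rw [if_pos hd, norm_mul, norm_mul, norm_pow, norm_neg, norm_one, one_pow, one_mul,
                  Complex.norm_natCast, norm_pow]
                have hEle : (Eb P T p : ℝ) ≤ m := by
                  exact_mod_cast Nat.le_of_dvd (by omega) hd
                have hr : 2 ≤ m / Eb P T p := by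
                  obtain ⟨r, hr⟩ := hd
                  have : m / Eb P T p = r := by
                    rw [hr, Nat.mul_div_cancel_left _ (by omega)]
                  rw [this]
                  rcases r with _ | _ | r
                  · omega
                  · omega
                  · omega
                have hg : ‖y2 P r T p‖ ≤ R / p := y2_norm P r T p hp0 (hc p hp).2.2
                have hg1 : (R / p : ℝ) ≤ 1 := by
                  rw [div_le_one hpr]; exact hp8
                have hg2 : ‖y2 P r T p‖ ^ (m / Eb P T p) ≤ (R / p : ℝ) ^ 2 := by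
                  calc _ ≤ (R / p : ℝ) ^ (m / Eb P T p) :=
                        pow_le_pow_left₀ (norm_nonneg _) hg _
                    _ ≤ _ := pow_le_pow_of_le_one (by positivity) hg1 hr
                calc (Eb P T p : ℝ) * ‖y2 P r T p‖ ^ (m / Eb P T p) ≤ m * (R / p : ℝ) ^ 2 :=
                      mul_le_mul hEle hg2 (by positivity) (by positivity)
                  _ = R ^ 2 * m * (p : ℝ)⁻¹ * (1 / p : ℝ) := by
                      field_simp
                  _ ≤ R ^ 2 * m * N0⁻¹ * (1 / p : ℝ) := by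
                      gcongr
              · rw [if_neg hd, norm_zero]
                positivity
        _ = R ^ 2 * m * N0⁻¹ * ∑ p ∈ PS P T, (1 / p : ℝ) := by rw [Finset.mul_sum]
        _ ≤ R ^ 2 * m * N0⁻¹ * C1 := by gcongr
        _ = _ := by ring
    -- main part
    have hBsum : ‖∑ p ∈ (PS P T).filter (fun p => Eb P T p = m), (m : ℂ) * y2 P r T p -
        ∑ p ∈ (PS P T).filter (fun p => Eb P T p = m), (m : ℂ) *
          (((1 / Real.log T : ℝ) : ℂ) *
            ((Real.log p / p : ℝ) * HQ P r m (Real.log p / Real.log T)))‖ ≤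
        m * (3 * r ^ 2) * C1 ^ 2 * (Real.log T)⁻¹ := by
      rw [← Finset.sum_sub_distrib]
      refine (norm_sum_le _ _).trans ?_
      calc _ ≤ ∑ p ∈ (PS P T).filter (fun p => Eb P T p = m),
            m * (3 * r ^ 2 * (C1 / Real.log T)) * (1 / p : ℝ) := by
            apply Finset.sum_le_sum
            intro p hp
            rw [Finset.mem_filter] at hp
            obtain ⟨hp0, hp8, hpN⟩ := hmem p hp.1
            rw [← mul_sub, norm_mul, Complex.norm_natCast, mul_assoc]
            apply mul_le_mul_of_nonneg_left _ (by positivity)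
            have h1 := (hc p hp.1).2.1
            rw [hp.2] at h1
            exact y2_sub P r T hT10 p m hp0 C1 (hc p hp.1).2.2 h1
        _ ≤ ∑ p ∈ PS P T, m * (3 * r ^ 2 * (C1 / Real.log T)) * (1 / p : ℝ) := by
            apply Finset.sum_le_sum_of_subset_of_nonneg (Finset.filter_subset _ _)
            intro p hp _
            positivity
        _ = m * (3 * r ^ 2 * (C1 / Real.log T)) * ∑ p ∈ PS P T, (1 / p : ℝ) := by
            rw [Finset.mul_sum]
        _ ≤ m * (3 * r ^ 2 * (C1 / Real.log T)) * C1 := by gcongr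
        _ = _ := by field_simp
    have hsum : ∑ p ∈ (PS P T).filter (fun p => Eb P T p = m), (m : ℂ) *
          (((1 / Real.log T : ℝ) : ℂ) *
            ((Real.log p / p : ℝ) * HQ P r m (Real.log p / Real.log T))) =
        (m : ℂ) * (((1 / Real.log T : ℝ) : ℂ) *
          ∑ p ∈ (Finset.Icc 1 ⌊T⌋₊).filter Nat.Prime,
            ((Real.log p / p : ℝ) : ℂ) * HQ P r m (Real.log p / Real.log T)) := by
      rw [Finset.mul_sum, Finset.mul_sum]
      apply Finset.sum_subset
      · exact (Finset.filter_subset _ _).trans (PS_sub P T hT10)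
      · intro p hp hp'
        rw [Finset.mem_filter] at hp
        have : P.b m (Real.log p / Real.log T) = 0 := by
          by_contra h
          exact hp' (Finset.mem_filter.mpr (mem_of_b P T hT10 p m hp.2 h))
        simp [HQ, this]
    have hC : ‖(m : ℂ) * (((1 / Real.log T : ℝ) : ℂ) *
          ∑ p ∈ (Finset.Icc 1 ⌊T⌋₊).filter Nat.Prime,
            ((Real.log p / p : ℝ) : ℂ) * HQ P r m (Real.log p / Real.log T)) -
              (tm P r m : ℝ)‖ ≤
        m * C2 * (Real.log T)⁻¹ := by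
      rw [htm, ← mul_sub, norm_mul, Complex.norm_natCast, mul_assoc]
      apply mul_le_mul_of_nonneg_left _ (by positivity)
      exact hmert T hT10
    rw [hsum] at hBsum
    calc ‖tt (PS P T) (Eb P T) (y2 P r T) m - (tm P r m : ℝ)‖ ≤ _ + (_ + _) := by
          refine (norm_sub_le_norm_sub_add_norm_sub _
            (∑ p ∈ (PS P T).filter (fun p => Eb P T p = m), (m : ℂ) * y2 P r T p) _).trans ?_
          exact add_le_add hA ((norm_sub_le_norm_sub_add_norm_sub _ _ _).trans
            (add_le_add hBsum hC))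
      _ = _ := by ring
  have hlim : Tendsto (fun T : ℝ => R ^ 2 * m * C1 * (T ^ ((1 - P.κ) / P.B))⁻¹ +
      (m * (3 * r ^ 2) * C1 ^ 2 + m * C2) * (Real.log T)⁻¹) atTop (𝓝 0) := by
    have h1 := (hN0.inv_tendsto_atTop).const_mul (R ^ 2 * m * C1)
    have h2 := (Real.tendsto_log_atTop.inv_tendsto_atTop).const_mul
      (m * (3 * r ^ 2) * C1 ^ 2 + m * C2)
    have h3 := h1.add h2
    simpa using h3
  exact squeeze_zero' (Eventually.of_forall fun _ => norm_nonneg _) hbound hlim

lemma qq_QT (P : Par) (r T : ℝ) (n : ℕ) :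
    qq (PS P T) (Eb P T) (y2 P r T) n = ((QT P r T n : ℝ) : ℂ) := by
  unfold qq QT y2
  push_cast
  rfl

end QLimAux

open QLimAux

theorem QLIM (P : Par) (B0 : ℕ) (hB : P.B = 2 * B0) (r : ℝ) (q : ℕ → ℝ)
    (hq : IsQ B0 (tm P r) q) (n : ℕ) (hn : n ≤ B0) :
    Tendsto (fun T : ℝ => QT P r T n) atTop (𝓝 (q n)) := by
  have hnew := fun T : ℝ => SP.newton (PS P T) (Eb P T) (fun p hp => by
    unfold PS at hp
    rw [Finset.mem_filter] at hp
    omega) (y2 P r T)
  have key : ∀ n : ℕ, n ≤ B0 → Tendsto (fun T : ℝ => qq (PS P T) (Eb P T) (y2 P r T) n) atTop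
      (𝓝 ((q n : ℝ) : ℂ)) := by
    intro n
    induction n using Nat.strong_induction_on with
    | _ n ih =>
      intro hn
      rcases Nat.eq_zero_or_pos n with h0 | h0
      · subst h0
        rw [hq.1]
        simp only [(hnew _).1]
        simp
      · have hn0 : (n : ℂ) ≠ 0 := by exact_mod_cast (show n ≠ 0 by omega)
        have e1 : ∀ T : ℝ, qq (PS P T) (Eb P T) (y2 P r T) n = (n : ℂ)⁻¹ *
            ∑ m ∈ Finset.Icc 1 n, tt (PS P T) (Eb P T) (y2 P r T) m *
              qq (PS P T) (Eb P T) (y2 P r T) (n - m) := by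
          intro T
          rw [← (hnew T).2 n h0, ← mul_assoc, inv_mul_cancel₀ hn0, one_mul]
        have e2 : ((q n : ℝ) : ℂ) = (n : ℂ)⁻¹ *
            ∑ m ∈ Finset.Icc 1 n, ((tm P r m : ℝ) : ℂ) * ((q (n - m) : ℝ) : ℂ) := by
          have := hq.2 n h0 hn
          have h2 : (n : ℂ) * ((q n : ℝ) : ℂ) =
              ∑ m ∈ Finset.Icc 1 n, ((tm P r m : ℝ) : ℂ) * ((q (n - m) : ℝ) : ℂ) := by
            exact_mod_cast this
          rw [← h2, ← mul_assoc, inv_mul_cancel₀ hn0, one_mul]
        rw [e2]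
        simp only [e1]
        apply Tendsto.const_mul
        apply tendsto_finsetSum
        intro m hm
        rw [Finset.mem_Icc] at hm
        exact (tt_lim2 P r m hm.1).mul (ih (n - m) (by omega) (by omega))
  have h := key n hn
  simp only [qq_QT] at h
  have h2 := (Complex.continuous_re.tendsto _).comp h
  refine h2.congr fun T => ?_
  simp only [Function.comp, Complex.ofReal_re]

end LG
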